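import Mathlib
import Pool.Agent.H297R3.Luo.Defs
import Pool.Agent.H297R3.Luo.Norm
import Pool.Agent.H297R3.Luo.Weight

/-!
# The volume on `W(T)` is not bounded by the Gromov norm

The 3-sphere is the join of two circles. Divide the circles into `2 m + 2` and `2 n + 2` arcs; the
joins of the arcs are the tetrahedra of a triangulation `T` of `S³`. Let the tetrahedra with
`i + j` even have the angles `π / 3, π / 3, π / 3`, and the others have
the angles `- π / 3, - π / 2, - π / 6` or `- π / 3, - π / 6, - π / 2`,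
according to the parity of `i`. This is a point of `W(T)` of volume
`2 (m + 1) (n + 1) (2 Λ(π / 3) - Λ(π / 2) - Λ(π / 6)) > 0`, while `S³` has Gromov norm `0`.
-/

set_option autoImplicit false

namespace Pool.Agent.Results.MP_e8da18_gt.VolumeUnbounded

open Pool.Agent.H297R3.Luo

/-- For every real number `C` there are an oriented triangulation `T` of the 3-sphere and a point
`z` of `W(T)` with `vol(z) > v₃ ‖S³‖ + C`. -/
theorem result : ∀ C : ℝ, ∃ T : Triangulation,
    Nonempty (T.Space ≃ₜ Metric.sphere (0 : EuclideanSpace ℝ (Fin 4)) 1) ∧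
      ∃ z ∈ T.W, v3 * T.gromovNorm + C < T.vol z := by
  intro C
  have hkey := lob_key
  obtain ⟨n, hn⟩ := exists_nat_gt
    (C / (2 * lob (Real.pi / 3) - lob (Real.pi / 2) - lob (Real.pi / 6)))
  refine ⟨joinTri 0 n, ⟨(homeo 0 n).trans sphereHomeo⟩, zz 0 n, zz_mem 0 n, ?_⟩
  rw [gromovNorm_zero, vol_zz, mul_zero, zero_add]
  rw [div_lt_iff₀ hkey] at hn
  push_cast
  nlinarith

end Pool.Agent.Results.MP_e8da18_gt.VolumeUnbounded
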